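import Pool.Agent.H30.LT.Targets

/-!
# MP_70ba79_ag: linear forms with invertible coefficients generate prime ideals (module PRI)
-/

set_option autoImplicit false

namespace Pool.Agent.H46.LT.PRI

open MvPolynomial Pool.Agent.H30.LT

private theorem lin_upd {𝔸 τ : Type} [CommRing 𝔸] [Fintype τ] [DecidableEq τ] (ω : τ → 𝔸)
    (p : τ) : lin ω = C (ω p) * X p + lin (Function.update ω p 0) := by
  rw [lin, lin, ← Finset.add_sum_erase _ _ (Finset.mem_univ p),
    ← Finset.add_sum_erase _ (fun t => C (Function.update ω p 0 t) * X t) (Finset.mem_univ p)]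
  rw [Function.update_self, map_zero, zero_mul, zero_add]
  congr 1
  refine Finset.sum_congr rfl fun t ht => ?_
  rw [Function.update_of_ne (Finset.ne_of_mem_erase ht)]

private theorem coeff_lin {𝔸 τ : Type} [CommRing 𝔸] [Fintype τ] (ω : τ → 𝔸) (s : τ) :
    coeff (Finsupp.single s 1) (lin ω) = ω s := by
  classical
  rw [lin, coeff_sum, Finset.sum_eq_single s]
  · rw [coeff_C_mul, coeff_X, if_pos rfl, mul_one]
  · intro t _ hts
    rw [coeff_C_mul, coeff_X, if_neg, mul_zero]
    intro h
    exact hts (Finsupp.single_left_injective one_ne_zero h)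
  · intro h
    exact absurd (Finset.mem_univ s) h

theorem pf_PRI : T_PRI := by
  classical
  intro 𝔸 τ _ _ _ p p' ω ω' hp hp' hω'
  obtain ⟨u, hu⟩ := hp
  have hpp : p' ≠ p := by
    rintro rfl
    rw [hp'] at hu
    exact u.ne_zero hu
  let S : MvPolynomial τ 𝔸 := lin (Function.update ω p 0)
  let φ : MvPolynomial τ 𝔸 →ₐ[𝔸] MvPolynomial τ 𝔸 :=
    aeval fun t => if t = p then - (C ((u⁻¹ : 𝔸ˣ) : 𝔸) * S) else X t
  have hφp : φ (X p) = - (C ((u⁻¹ : 𝔸ˣ) : 𝔸) * S) := by
    simp only [φ, aeval_X, if_true]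
  have hφt : ∀ t, t ≠ p → φ (X t) = X t := by
    intro t ht
    simp only [φ, aeval_X, if_neg ht]
  have hφl : ∀ v : τ → 𝔸, φ (lin v) =
      - (C (v p * ((u⁻¹ : 𝔸ˣ) : 𝔸)) * S) + lin (Function.update v p 0) := by
    intro v
    rw [lin_upd v p, map_add, map_mul, hφp]
    have h1 : φ (C (v p)) = C (v p) := by
      rw [← MvPolynomial.algebraMap_eq, AlgHom.commutes]
    have h2 : φ (lin (Function.update v p 0)) = lin (Function.update v p 0) := by
      rw [lin, map_sum]
      refine Finset.sum_congr rfl fun t _ => ?_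
      by_cases ht : t = p
      · subst ht
        rw [Function.update_self, map_zero, zero_mul, map_zero]
      · rw [map_mul, hφt t ht, ← MvPolynomial.algebraMap_eq, AlgHom.commutes]
    rw [h1, h2]
    rw [map_mul]
    ring
  have hφ0 : φ (lin ω) = 0 := by
    rw [hφl ω, ← hu, Units.mul_inv, map_one, one_mul]
    exact neg_add_cancel S
  have hker : RingHom.ker φ.toRingHom = Ideal.span {lin ω} := by
    apply le_antisymm
    · intro G hG
      have hG' : φ G = 0 := hG
      have hcomp : (Ideal.Quotient.mkₐ 𝔸 (Ideal.span {lin ω})).comp φ =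
          Ideal.Quotient.mkₐ 𝔸 (Ideal.span {lin ω}) := by
        apply MvPolynomial.algHom_ext
        intro t
        by_cases ht : t = p
        · subst ht
          rw [AlgHom.comp_apply, hφp]
          change Ideal.Quotient.mk _ _ = Ideal.Quotient.mk _ _
          rw [Ideal.Quotient.eq, Ideal.mem_span_singleton]
          refine ⟨- C ((u⁻¹ : 𝔸ˣ) : 𝔸), ?_⟩
          rw [lin_upd ω t, ← hu]
          have h3 : (C ((u⁻¹ : 𝔸ˣ) : 𝔸) : MvPolynomial τ 𝔸) * C (u : 𝔸) = 1 := by
            rw [← map_mul, Units.inv_mul, map_one]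
          change - (C ((u⁻¹ : 𝔸ˣ) : 𝔸) * S) - X t = (C (u : 𝔸) * X t + S) * _
          linear_combination (X t) * h3
        · rw [AlgHom.comp_apply, hφt t ht]
      have h4 := congrArg (fun f => f G) hcomp
      simp only [AlgHom.comp_apply, hG', map_zero] at h4
      exact Ideal.Quotient.eq_zero_iff_mem.1 h4.symm
    · rw [Ideal.span_singleton_le_iff_mem]
      exact hφ0
  refine ⟨?_, ?_, ?_⟩
  · rw [← hker]
    exact RingHom.ker_isPrime _
  · intro hmem
    rw [← hker] at hmem
    have h5 : φ (lin ω') = 0 := hmem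
    rw [hφl ω'] at h5
    have h6 := congrArg (coeff (Finsupp.single p' 1)) h5
    rw [coeff_add, coeff_neg, coeff_C_mul, coeff_lin, coeff_lin,
      Function.update_of_ne hpp, Function.update_of_ne hpp, hp', mul_zero, neg_zero, zero_add,
      coeff_zero] at h6
    exact hω'.ne_zero h6
  · intro h
    have h7 := congrArg (coeff (Finsupp.single p 1)) h
    rw [coeff_lin, coeff_zero, ← hu] at h7
    exact u.ne_zero h7

end Pool.Agent.H46.LT.PRI
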