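import Pool.Agent.H30.LT.Targets

/-!
# MP_70ba79_ag: the tail of the generating function (module TAI of the board `al_modules`)
-/

set_option autoImplicit false

namespace Pool.Agent.H46.LT.TAI

open Pool.Agent.H30.LT

private theorem base (D : ℕ) (r : ℝ) (h0 : 0 < r) (h1 : r < 1) :
    (Summable fun M : ℕ => (((D + M).choose D : ℕ) : ℝ) * r ^ M) ∧
      ∑' M : ℕ, (((D + M).choose D : ℕ) : ℝ) * r ^ M = 1 / (1 - r) ^ (D + 1) := by
  have hr : ‖r‖ < 1 := by
    rw [Real.norm_eq_abs, abs_of_pos h0]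
    exact h1
  have hs := summable_choose_mul_geometric_of_norm_lt_one (R := ℝ) D hr
  have ht := tsum_choose_mul_geometric_of_norm_lt_one (𝕜 := ℝ) D hr
  have he : (fun M : ℕ => (((D + M).choose D : ℕ) : ℝ) * r ^ M) =
      fun M : ℕ => (((M + D).choose D : ℕ) : ℝ) * r ^ M := by
    funext M
    rw [add_comm D M]
  rw [he]
  exact ⟨hs, ht⟩

private theorem upper (h : ℕ → ℕ) (D c e : ℕ) (r : ℝ) (h0 : 0 < r) (h1 : r < 1)
    (hu : ∀ M, h M ≤ e * (D + (M + c)).choose D) :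
    (Summable fun M => (h M : ℝ) * r ^ M) ∧
      ∑' M, (h M : ℝ) * r ^ M ≤ e / (r ^ c * (1 - r) ^ (D + 1)) := by
  obtain ⟨hs, ht⟩ := base D r h0 h1
  set f : ℕ → ℝ := fun M : ℕ => (((D + M).choose D : ℕ) : ℝ) * r ^ M with hf
  have hrc : 0 < r ^ c := pow_pos h0 c
  have hfn : ∀ M, 0 ≤ f M := fun M => mul_nonneg (Nat.cast_nonneg _) (pow_nonneg h0.le _)
  have hs' : Summable fun M => f (M + c) := (summable_nat_add_iff c).2 hs
  have hle : ∀ M, (h M : ℝ) * r ^ M ≤ e / r ^ c * f (M + c) := by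
    intro M
    have h2 : (h M : ℝ) ≤ e * (((D + (M + c)).choose D : ℕ) : ℝ) := by exact_mod_cast hu M
    have h3 : e / r ^ c * f (M + c) = e * (((D + (M + c)).choose D : ℕ) : ℝ) * r ^ M := by
      simp only [hf]
      rw [pow_add]
      field_simp
    rw [h3]
    exact mul_le_mul_of_nonneg_right h2 (pow_nonneg h0.le _)
  have hnn : ∀ M, 0 ≤ (h M : ℝ) * r ^ M := fun M =>
    mul_nonneg (Nat.cast_nonneg _) (pow_nonneg h0.le _)
  have hsum : Summable fun M => e / r ^ c * f (M + c) := hs'.mul_left _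
  refine ⟨Summable.of_nonneg_of_le hnn hle hsum, ?_⟩
  calc ∑' M, (h M : ℝ) * r ^ M ≤ ∑' M, e / r ^ c * f (M + c) :=
        (Summable.of_nonneg_of_le hnn hle hsum).tsum_le_tsum hle hsum
    _ = e / r ^ c * ∑' M, f (M + c) := tsum_mul_left
    _ ≤ e / r ^ c * ∑' M, f M := by
        refine mul_le_mul_of_nonneg_left ?_ (by positivity)
        have := hs.sum_add_tsum_nat_add c
        have h4 : 0 ≤ ∑ i ∈ Finset.range c, f i := Finset.sum_nonneg fun i _ => hfn i
        linarith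
    _ = e / (r ^ c * (1 - r) ^ (D + 1)) := by
        rw [ht]
        field_simp

theorem pf_TAI : T_TAI := by
  intro h D c e q N z z' hz hzz hz1 he hl hu hm
  have hz1' : z < 1 := hzz.trans hz1
  have hz' : 0 < z' := hz.trans hzz
  obtain ⟨hs0, -⟩ := upper (h 0) D c e z hz hz1' hu
  obtain ⟨hs1, hb1⟩ := upper (h 0) D c e z' hz' hz1 hu
  have hq : ∀ q M, h q M ≤ h 0 M := by
    intro q
    induction q with
    | zero => intro M; exact le_rfl
    | succ q ih => intro M; exact (hm q M).trans (ih M)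
  refine ⟨hs0, ?_, ?_⟩
  · obtain ⟨hs, ht⟩ := base D z hz hz1'
    have h5 : ∑' M, (h 0 (M + c) : ℝ) * z ^ (M + c) ≤ ∑' M, (h 0 M : ℝ) * z ^ M := by
      have := hs0.sum_add_tsum_nat_add c
      have h4 : 0 ≤ ∑ i ∈ Finset.range c, (h 0 i : ℝ) * z ^ i :=
        Finset.sum_nonneg fun i _ => mul_nonneg (Nat.cast_nonneg _) (pow_nonneg hz.le _)
      linarith
    have hs' : Summable fun M => (h 0 (M + c) : ℝ) * z ^ (M + c) :=
      (summable_nat_add_iff (f := fun M => (h 0 M : ℝ) * z ^ M) c).2 hs0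
    have h6 : ∀ M, e * z ^ c * ((((D + M).choose D : ℕ) : ℝ) * z ^ M) ≤
        (h 0 (M + c) : ℝ) * z ^ (M + c) := by
      intro M
      have h2 : (e : ℝ) * (((D + M).choose D : ℕ) : ℝ) ≤ h 0 (M + c) := by exact_mod_cast hl M
      have h3 : e * z ^ c * ((((D + M).choose D : ℕ) : ℝ) * z ^ M) =
          e * (((D + M).choose D : ℕ) : ℝ) * z ^ (M + c) := by
        rw [pow_add]
        ring
      rw [h3]
      exact mul_le_mul_of_nonneg_right h2 (pow_nonneg hz.le _)
    calc z ^ c / (1 - z) ^ (D + 1) * e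
        = e * z ^ c * ∑' M, ((((D + M).choose D : ℕ) : ℝ) * z ^ M) := by
          rw [ht]
          ring
      _ = ∑' M, e * z ^ c * ((((D + M).choose D : ℕ) : ℝ) * z ^ M) := tsum_mul_left.symm
      _ ≤ ∑' M, (h 0 (M + c) : ℝ) * z ^ (M + c) := (hs.mul_left _).tsum_le_tsum h6 hs'
      _ ≤ _ := h5
  · intro h0
    have hzq : 0 < z / z' := div_pos hz hz'
    have hzq1 : z / z' ≤ 1 := (div_le_one hz').2 hzz.le
    have hle : ∀ M, (h q M : ℝ) * z ^ M ≤ (z / z') ^ N * ((h 0 M : ℝ) * z' ^ M) := by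
      intro M
      by_cases hMN : M < N
      · rw [h0 M hMN]
        have : 0 ≤ (z / z') ^ N * ((h 0 M : ℝ) * z' ^ M) := by positivity
        simpa using this
      · have h7 : z ^ M = (z / z') ^ M * z' ^ M := by
          rw [← mul_pow, div_mul_cancel₀ _ hz'.ne']
        have h8 : (z / z') ^ M ≤ (z / z') ^ N :=
          pow_le_pow_of_le_one hzq.le hzq1 (not_lt.1 hMN)
        have h9 : (h q M : ℝ) ≤ h 0 M := by exact_mod_cast hq q M
        rw [h7]
        calc (h q M : ℝ) * ((z / z') ^ M * z' ^ M) ≤ (h 0 M : ℝ) * ((z / z') ^ N * z' ^ M) := by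
              gcongr
          _ = _ := by ring
    have hnn : ∀ M, 0 ≤ (h q M : ℝ) * z ^ M := fun M =>
      mul_nonneg (Nat.cast_nonneg _) (pow_nonneg hz.le _)
    have hs2 : Summable fun M => (z / z') ^ N * ((h 0 M : ℝ) * z' ^ M) := hs1.mul_left _
    calc ∑' M, (h q M : ℝ) * z ^ M ≤ ∑' M, (z / z') ^ N * ((h 0 M : ℝ) * z' ^ M) :=
          (Summable.of_nonneg_of_le hnn hle hs2).tsum_le_tsum hle hs2
      _ = (z / z') ^ N * ∑' M, ((h 0 M : ℝ) * z' ^ M) := tsum_mul_left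
      _ ≤ _ := mul_le_mul_of_nonneg_left hb1 (pow_nonneg hzq.le _)

end Pool.Agent.H46.LT.TAI
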